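import Mathlib

/-!
# Unramified Galois cohomology of a field over ℂ

Definitions used in the statement of `MP_ba83fc_ag.UnramifiedH4Infinite`.

* `cochains G ℓ n`     : locally constant functions `G ^ n → ℤ/ℓ` (inhomogeneous continuous cochains
                          with trivial action),
* `diff G ℓ n`         : the usual inhomogeneous differential,
* `H G ℓ n`            : continuous cohomology `H^n(G, ℤ/ℓ)`, i.e. cocycles modulo coboundaries,
* `H.map`              : functoriality (restriction and inflation),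
* `unramified L ℓ n`   : the classes of `H^n(Gal(Lbar/L), ℤ/ℓ)` with zero residue at every discrete
                          valuation of `L` trivial on `ℂ`.
-/

namespace UnrCoh

section Cohomology

variable (G : Type*) [Group G] [TopologicalSpace G] (ℓ : ℕ)

/-- Continuous (that is, locally constant) inhomogeneous `n`-cochains `G ^ n → ℤ/ℓ`. -/
def cochains (n : ℕ) : AddSubgroup ((Fin n → G) → ZMod ℓ) where
  carrier := {f | IsLocallyConstant f}
  add_mem' hf hg := hf.add hg
  zero_mem' := IsLocallyConstant.const 0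
  neg_mem' hf := hf.neg

/-- The inhomogeneous differential
`(d f)(g₀,…,gₙ) = f(g₁,…,gₙ) + ∑_{j<n} (-1)^{j+1} f(g₀,…,gⱼgⱼ₊₁,…,gₙ) + (-1)^{n+1} f(g₀,…,gₙ₋₁)`
for the trivial action (the last summand is the term `j = n` of the sum below). -/
def diff (n : ℕ) : ((Fin n → G) → ZMod ℓ) →+ ((Fin (n + 1) → G) → ZMod ℓ) where
  toFun f g := f (fun i => g i.succ) +
    ∑ j : Fin (n + 1), (-1) ^ ((j : ℕ) + 1) * f (Fin.contractNth j (· * ·) g)
  map_zero' := by ext g; simp
  map_add' f₁ f₂ := by
    ext g
    simp only [Pi.add_apply, mul_add, Finset.sum_add_distrib]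
    ring

/-- Continuous `n`-cocycles. -/
def cocycles (n : ℕ) : AddSubgroup ((Fin n → G) → ZMod ℓ) :=
  cochains G ℓ n ⊓ (diff G ℓ n).ker

/-- Continuous `n`-coboundaries: differentials of continuous `(n-1)`-cochains. -/
def coboundaries : (n : ℕ) → AddSubgroup ((Fin n → G) → ZMod ℓ)
  | 0 => ⊥
  | n + 1 => (cochains G ℓ n).map (diff G ℓ n)

/-- Continuous cohomology `H^n(G, ℤ/ℓ)` of the topological group `G` (trivial action). -/
abbrev H (n : ℕ) : Type _ :=
  cocycles G ℓ n ⧸ (coboundaries G ℓ n).addSubgroupOf (cocycles G ℓ n)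

end Cohomology

section Functoriality

variable {G G' : Type*} [Group G] [TopologicalSpace G] [Group G'] [TopologicalSpace G'] (ℓ : ℕ)

/-- Pull-back of functions along a group homomorphism. -/
def pull (φ : G' →* G) (n : ℕ) : ((Fin n → G) → ZMod ℓ) →+ ((Fin n → G') → ZMod ℓ) where
  toFun f g := f (fun i => φ (g i))
  map_zero' := rfl
  map_add' _ _ := rfl

theorem pull_mem_cochains {φ : G' →* G} (hφ : Continuous φ) {n : ℕ}
    {f : (Fin n → G) → ZMod ℓ} (hf : f ∈ cochains G ℓ n) : pull ℓ φ n f ∈ cochains G' ℓ n := by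
  have hc : Continuous (fun g : Fin n → G' => fun i => φ (g i)) :=
    continuous_pi fun i => hφ.comp (continuous_apply i)
  exact (show IsLocallyConstant f from hf).comp_continuous hc

omit [TopologicalSpace G] [TopologicalSpace G'] in
theorem diff_pull (φ : G' →* G) {n : ℕ} (f : (Fin n → G) → ZMod ℓ) :
    diff G' ℓ n (pull ℓ φ n f) = pull ℓ φ (n + 1) (diff G ℓ n f) := by
  ext g
  simp only [diff, pull, AddMonoidHom.coe_mk, ZeroHom.coe_mk]
  congr 1
  refine Finset.sum_congr rfl fun j _ => ?_
  congr 2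
  ext i
  simp only [Fin.contractNth]
  split_ifs <;> simp

theorem pull_mem_cocycles {φ : G' →* G} (hφ : Continuous φ) {n : ℕ}
    {f : (Fin n → G) → ZMod ℓ} (hf : f ∈ cocycles G ℓ n) : pull ℓ φ n f ∈ cocycles G' ℓ n := by
  refine ⟨pull_mem_cochains ℓ hφ hf.1, ?_⟩
  have h0 : diff G ℓ n f = 0 := hf.2
  change diff G' ℓ n (pull ℓ φ n f) = 0
  rw [diff_pull, h0, map_zero]

theorem pull_mem_coboundaries {φ : G' →* G} (hφ : Continuous φ) {n : ℕ}
    {f : (Fin n → G) → ZMod ℓ} (hf : f ∈ coboundaries G ℓ n) :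
    pull ℓ φ n f ∈ coboundaries G' ℓ n := by
  cases n with
  | zero =>
    have h0 : f = 0 := hf
    subst h0
    exact map_zero _
  | succ n =>
    obtain ⟨g, hg, rfl⟩ := hf
    exact ⟨pull ℓ φ n g, pull_mem_cochains ℓ hφ hg, diff_pull ℓ φ g⟩

/-- Pull-back on cocycles. -/
def cocyclesMap (φ : G' →* G) (hφ : Continuous φ) (n : ℕ) :
    cocycles G ℓ n →+ cocycles G' ℓ n where
  toFun f := ⟨pull ℓ φ n f.1, pull_mem_cocycles ℓ hφ f.2⟩
  map_zero' := rfl
  map_add' _ _ := rfl

/-- The map `H^n(G, ℤ/ℓ) → H^n(G', ℤ/ℓ)` induced by a continuous homomorphism `G' → G`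
(restriction if `G'` is a subgroup of `G`, inflation if `G` is a quotient of `G'`). -/
def H.map (φ : G' →* G) (hφ : Continuous φ) (n : ℕ) : H G ℓ n →+ H G' ℓ n :=
  QuotientAddGroup.map _ _ (cocyclesMap ℓ φ hφ n) (by
    intro f hf
    exact pull_mem_coboundaries ℓ hφ hf)

end Functoriality

section Inflated

variable {G : Type*} [Group G] [TopologicalSpace G] (ℓ n : ℕ)

/-- Restriction `H^n(G, ℤ/ℓ) → H^n(D, ℤ/ℓ)` to a subgroup `D`. -/
def res (D : Subgroup G) : H G ℓ n →+ H D ℓ n :=
  H.map ℓ D.subtype continuous_subtype_val n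

/-- Inflation `H^n(G/N, ℤ/ℓ) → H^n(G, ℤ/ℓ)` for a normal subgroup `N`. -/
def infl (N : Subgroup G) [N.Normal] : H (G ⧸ N) ℓ n →+ H G ℓ n :=
  H.map ℓ (QuotientGroup.mk' N) QuotientGroup.continuous_mk n

/-- The classes in `H^n(G, ℤ/ℓ)` whose restriction to `D` is inflated from `D/I`, where `I` is a
normal subgroup of `D`. -/
def inflatedOn (D : Subgroup G) (I : Subgroup D) [I.Normal] : AddSubgroup (H G ℓ n) :=
  (infl ℓ n I).range.comap (res ℓ n D)

end Inflated

section Unramified

variable (L : Type*) [Field L] {Ω : Type*} [Field Ω] [Algebra L Ω]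

/-- `W` is a valuation ring of `Ω` lying over (the ring of) a discrete valuation of `L` which is
trivial on `ℂ`. -/
def IsDiscretePlace [Algebra ℂ L] (W : ValuationSubring Ω) : Prop :=
  (∀ c : ℂ, algebraMap L Ω (algebraMap ℂ L c) ∈ W) ∧
    IsDiscreteValuationRing (W.comap (algebraMap L Ω))

instance inertiaNormal (W : ValuationSubring Ω) : (W.inertiaSubgroup L).Normal :=
  MonoidHom.normal_ker _

/-- The classes in `H^n(Gal(Ω/L), ℤ/ℓ)` such that, for every valuation ring `W` of `Ω` over a
discrete valuation `v` of `L` trivial on `ℂ`, the restriction of the class to the decomposition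
group `D` of `W` is inflated from the quotient `D/I` of `D` by the inertia group `I` of `W`. -/
noncomputable def unramifiedIn (Ω : Type*) [Field Ω] [Algebra L Ω] [Algebra ℂ L] (ℓ n : ℕ) :
    AddSubgroup (H (Ω ≃ₐ[L] Ω) ℓ n) :=
  ⨅ W : {W : ValuationSubring Ω // IsDiscretePlace L W},
    inflatedOn ℓ n (W.1.decompositionSubgroup L) (W.1.inertiaSubgroup L)

/-- The group `H^n_nr(L/ℂ, ℤ/ℓ)`: the previous group for the algebraic closure `Lbar` of `L`.
(If `W` lies over the discrete valuation `v`, the group `D` is the absolute Galois group of the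
henselization of `L` at `v`, the group `D/I` is the absolute Galois group of the residue field
`κ(v)`, and the kernel of the residue map `∂_v` on `H^n(D, ℤ/ℓ)` is the image of
`H^n(D/I, ℤ/ℓ)`.) -/
noncomputable def unramified [Algebra ℂ L] (ℓ n : ℕ) :
    AddSubgroup (H (AlgebraicClosure L ≃ₐ[L] AlgebraicClosure L) ℓ n) :=
  unramifiedIn L (AlgebraicClosure L) ℓ n

variable {L} in
theorem mem_unramified [Algebra ℂ L] {ℓ n : ℕ}
    {ξ : H (AlgebraicClosure L ≃ₐ[L] AlgebraicClosure L) ℓ n} :
    ξ ∈ unramified L ℓ n ↔ ∀ W : ValuationSubring (AlgebraicClosure L), IsDiscretePlace L W →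
      H.map ℓ (W.decompositionSubgroup L).subtype continuous_subtype_val n ξ ∈
      (H.map ℓ (QuotientGroup.mk' (W.inertiaSubgroup L)) QuotientGroup.continuous_mk n).range := by
  unfold unramified unramifiedIn
  rw [AddSubgroup.mem_iInf]
  exact ⟨fun h W hW => h ⟨W, hW⟩, fun h W => h W.1 W.2⟩

end Unramified

end UnrCoh
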