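import Mathlib
import Pool.Agent.Helper15.UH.Defs

/-!
# Goals (packets) for `MP_ba83fc_ag`
-/

namespace UnrCoh

open scoped Pointwise

/-! ## Constants -/

/-- A chosen square root in ℂ. -/
noncomputable def csq (z : ℂ) : ℂ := Classical.choose (IsAlgClosed.exists_pow_nat_eq z two_pos)

theorem csq_sq (z : ℂ) : csq z ^ 2 = z :=
  Classical.choose_spec (IsAlgClosed.exists_pow_nat_eq z two_pos)

/-- The sequences `(p_m, q_m, r_m)` with `r_m ^ 2 = p_m ^ 2 - q_m ^ 2`. -/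
noncomputable def pqr : ℕ → ℂ × ℂ × ℂ
  | 0 => (4, 2, csq 12)
  | m + 1 => ((pqr m).1 + (pqr m).2.2, (pqr m).1 - (pqr m).2.2, csq (4 * (pqr m).1 * (pqr m).2.2))

noncomputable def pp (m : ℕ) : ℂ := (pqr m).1
noncomputable def qq (m : ℕ) : ℂ := (pqr m).2.1
noncomputable def rr (m : ℕ) : ℂ := (pqr m).2.2
/-- the moduli `k_m = q_m / p_m` -/
noncomputable def kk (m : ℕ) : ℂ := qq m / pp m
/-- `t_m` with `t_m ^ 2 = k_m - ρ` -/
noncomputable def tt (ρ : ℂ) (m : ℕ) : ℂ := csq (kk m - ρ)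

/-- PACKET SEQ. Elementary properties of the sequences. -/
def S_SEQ : Prop :=
  (∀ m, rr m ^ 2 = pp m ^ 2 - qq m ^ 2) ∧ (∀ m, pp (m + 1) = pp m + rr m) ∧
  (∀ m, qq (m + 1) = pp m - rr m) ∧ (∀ m, pp m ≠ 0) ∧ (∀ m, qq m ≠ 0) ∧ (∀ m, kk m ≠ 0) ∧
  Function.Injective kk ∧ (∀ m, IsAlgebraic ℚ (kk m)) ∧
  (∀ A : ValuationSubring ℂ, A.valuation 3 < 1 →
    A.valuation 2 = 1 ∧ ∀ m, A.valuation (pp m) = 1 ∧ A.valuation (qq m) = 1 ∧
      A.valuation (kk m) = 1)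

/-! ## Symbols -/

/-- bilinear symmetric symbol with the norm relation -/
structure Sym2 {L M : Type} [Field L] [AddCommGroup M] (B : Lˣ → Lˣ → M) : Prop where
  mul : ∀ a b c, B (a * b) c = B a c + B b c
  symm : ∀ a b, B a b = B b a
  norm : ∀ (b c : Lˣ) (p q : L), (c : L) = p ^ 2 - b * q ^ 2 → B b c = 0

/-- 4-linear symmetric symbol with the norm relation -/
structure Sym4 {L M : Type} [Field L] [AddCommGroup M] (S : Lˣ → Lˣ → Lˣ → Lˣ → M) : Prop where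
  mul : ∀ a b c d e, S (a * b) c d e = S a c d e + S b c d e
  swap1 : ∀ a b c d, S a b c d = S b a c d
  swap2 : ∀ a b c d, S a b c d = S a c b d
  swap3 : ∀ a b c d, S a b c d = S a b d c
  norm : ∀ (b c : Lˣ) (p q : L), (c : L) = p ^ 2 - b * q ^ 2 → ∀ d e, S b c d e = 0

/-- `a(x) = (x+1)(x+9)` -/
def aa {L : Type} [Field L] (x : L) : L := (x + 1) * (x + 9)

/-- `f(x,y,k) = x (x+1)(x+9) y (y-1)(y-k²)` -/
def ff {L : Type} [Field L] (x y k : L) : L := x * aa x * (y * (y - 1) * (y - k ^ 2))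

/-- `h(u) = (u-1)(u-1/ρ)` -/
noncomputable def hh {L : Type} [Field L] [Algebra ℂ L] (u : L) (ρ : ℂ) : L :=
  (u - 1) * (u - algebraMap ℂ L ρ⁻¹)

/-- PACKET SPEC. The special identity `{a(x), y} = {f_m, φ_m}`. -/
def S_SPEC : Prop :=
  ∀ (L : Type) [Field L] [Algebra ℂ L] (x y : L), (∀ c : ℂ, y ≠ algebraMap ℂ L c) →
    ∀ (m : ℕ) (A Y F : Lˣ), (A : L) = aa x → (Y : L) = y → (F : L) = ff x y (algebraMap ℂ L (kk m)) →
    ∃ φ : Lˣ, ∀ (M : Type) [AddCommGroup M] (B : Lˣ → Lˣ → M), Sym2 B → B A Y = B F φ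

/-- PACKET ABSU. The symbol `{u, a(x), y, (t-t_i)(t-t_j)}` is unramified at every discrete
valuation ring `O` trivial on ℂ. -/
def S_ABSU : Prop :=
  ∀ (L : Type) [Field L] [Algebra ℂ L] (M : Type) [AddCommGroup M]
    (S : Lˣ → Lˣ → Lˣ → Lˣ → M), Sym4 S →
  ∀ (O : ValuationSubring L), (∀ c : ℂ, algebraMap ℂ L c ∈ O) → IsDiscreteValuationRing O →
  ∀ (Mur : AddSubgroup M),
    (∀ b c d e : Lˣ, O.valuation ((b : L) - 1) < 1 → S b c d e = 0) →
    (∀ b c d e : Lˣ, O.valuation (b : L) = 1 → O.valuation (c : L) = 1 →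
      O.valuation (d : L) = 1 → O.valuation (e : L) = 1 → S b c d e ∈ Mur) →
  ∀ (ρ : ℂ), ρ ≠ 0 → (∀ m, kk m ≠ ρ) →
  ∀ (t x y u r s P Q : L),
    P ^ 2 = ff x y (t ^ 2 + algebraMap ℂ L ρ) + u * r ^ 2 →
    Q ^ 2 = u * hh u ρ + aa x * s ^ 2 →
    (∀ c : ℂ, t ≠ algebraMap ℂ L c) → (∀ c : ℂ, x ≠ algebraMap ℂ L c) →
    (∀ c : ℂ, y ≠ algebraMap ℂ L c) → (∀ c : ℂ, u ≠ algebraMap ℂ L c) →
    y ≠ (t ^ 2 + algebraMap ℂ L ρ) ^ 2 →
  ∀ (i j : ℕ), tt ρ i ≠ tt ρ j →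
  ∀ (U A Y C : Lˣ), (U : L) = u → (A : L) = aa x → (Y : L) = y →
    (C : L) = (t - algebraMap ℂ L (tt ρ i)) * (t - algebraMap ℂ L (tt ρ j)) →
    S U A Y C ∈ Mur

/-! ## Galois side -/

section Galois

variable (L : Type) [Field L]

/-- the absolute Galois group -/
abbrev Gal : Type := AlgebraicClosure L ≃ₐ[L] AlgebraicClosure L

variable {L}

/-- a chosen square root of `b` in the algebraic closure -/
noncomputable def rt (b : Lˣ) : AlgebraicClosure L :=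
  Classical.choose (IsAlgClosed.exists_pow_nat_eq (algebraMap L (AlgebraicClosure L) b) two_pos)

theorem rt_sq (b : Lˣ) : rt b ^ 2 = algebraMap L (AlgebraicClosure L) b :=
  Classical.choose_spec
    (IsAlgClosed.exists_pow_nat_eq (algebraMap L (AlgebraicClosure L) b) two_pos)

open Classical in
/-- the Kummer character of `b`: `σ (√b) = (-1)^{kum b σ} √b` -/
noncomputable def kum (b : Lˣ) (σ : Gal L) : ZMod 2 := if σ (rt b) = rt b then 0 else 1

/-- the 4-cochain `χ₀ ∪ χ₁ ∪ χ₂ ∪ χ₃` -/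
def cup4 {G : Type} (χ₀ χ₁ χ₂ χ₃ : G → ZMod 2) : (Fin 4 → G) → ZMod 2 :=
  fun g => χ₀ (g 0) * χ₁ (g 1) * χ₂ (g 2) * χ₃ (g 3)

open Classical in
/-- the class in `H^4(Gal L, ℤ/2)` of the cup product of four Kummer characters -/
noncomputable def symb (b c d e : Lˣ) : H (Gal L) 2 4 :=
  if h : cup4 (kum b) (kum c) (kum d) (kum e) ∈ cocycles (Gal L) 2 4 then
    QuotientAddGroup.mk ⟨_, h⟩ else 0

end Galois

/-- PACKET KUM. Kummer characters. -/
def S_KUM : Prop :=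
  ∀ (L : Type) [Field L] [CharZero L],
    (∀ b : Lˣ, IsLocallyConstant (kum b)) ∧
    (∀ (b : Lˣ) (σ τ : Gal L), kum b (σ * τ) = kum b σ + kum b τ) ∧
    (∀ (b c : Lˣ) (σ : Gal L), kum (b * c) σ = kum b σ + kum c σ) ∧
    (∀ (b c : Lˣ) (p q : L), (c : L) = p ^ 2 - b * q ^ 2 →
      ∃ φ : Gal L → ZMod 2, IsLocallyConstant φ ∧
        ∀ σ τ : Gal L, kum b σ * kum c τ = φ σ + φ τ + φ (σ * τ))

/-- PACKET CUP. For a topological group and continuous characters with values in `ℤ/2`, the class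
of `cup4` is multilinear and symmetric, and it is trivial if `χ₀ ∪ χ₁` is a coboundary. -/
def S_CUP : Prop :=
  ∀ (G : Type) [Group G] [TopologicalSpace G] [IsTopologicalGroup G] (χ : Fin 5 → G → ZMod 2),
    (∀ i, IsLocallyConstant (χ i)) → (∀ i (g h : G), χ i (g * h) = χ i g + χ i h) →
    cup4 (χ 0) (χ 1) (χ 2) (χ 3) ∈ cocycles G 2 4 ∧
    cup4 (χ 0) (χ 1) (χ 2) (χ 3) - cup4 (χ 1) (χ 0) (χ 2) (χ 3) ∈ coboundaries G 2 4 ∧
    cup4 (χ 0) (χ 1) (χ 2) (χ 3) - cup4 (χ 0) (χ 2) (χ 1) (χ 3) ∈ coboundaries G 2 4 ∧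
    cup4 (χ 0) (χ 1) (χ 2) (χ 3) - cup4 (χ 0) (χ 1) (χ 3) (χ 2) ∈ coboundaries G 2 4 ∧
    (∀ φ : G → ZMod 2, IsLocallyConstant φ →
      (∀ g h : G, χ 0 g * χ 1 h = φ g + φ h + φ (g * h)) →
      cup4 (χ 0) (χ 1) (χ 2) (χ 3) ∈ coboundaries G 2 4)

/-- PACKET SYM4 (uses KUM and CUP). -/
def S_SYM4 : Prop := ∀ (L : Type) [Field L] [CharZero L],
  (∀ b c d e : Lˣ, cup4 (kum b) (kum c) (kum d) (kum e) ∈ cocycles (Gal L) 2 4) ∧
  Sym4 (symb (L := L))

/-- PACKET PLACE (uses SYM4, KUM). Behaviour of the Kummer characters at a place. -/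
def S_PLACE : Prop :=
  ∀ (L : Type) [Field L] [Algebra ℂ L] (W : ValuationSubring (AlgebraicClosure L)),
    IsDiscretePlace L W →
    (∀ b c d e : Lˣ, (W.comap (algebraMap L (AlgebraicClosure L))).valuation ((b : L) - 1) < 1 →
      H.map 2 (W.decompositionSubgroup L).subtype continuous_subtype_val 4 (symb b c d e) = 0) ∧
    (∀ b c d e : Lˣ, (W.comap (algebraMap L (AlgebraicClosure L))).valuation (b : L) = 1 →
      (W.comap (algebraMap L (AlgebraicClosure L))).valuation (c : L) = 1 →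
      (W.comap (algebraMap L (AlgebraicClosure L))).valuation (d : L) = 1 →
      (W.comap (algebraMap L (AlgebraicClosure L))).valuation (e : L) = 1 →
      H.map 2 (W.decompositionSubgroup L).subtype continuous_subtype_val 4 (symb b c d e) ∈
        (H.map 2 (QuotientGroup.mk' (W.inertiaSubgroup L)) QuotientGroup.continuous_mk 4).range)

/-- PACKET CYC. A class `symb b` is nonzero if the group has, modulo every open normal subgroup
of finite index, four commuting elements dual to the four characters. -/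
def S_CYC : Prop :=
  ∀ (L : Type) [Field L] [CharZero L] (b : Fin 4 → Lˣ),
    (∀ K : IntermediateField L (AlgebraicClosure L), FiniteDimensional L K → Normal L K →
      (∀ i, rt (b i) ∈ K) →
      ∃ σ : Fin 4 → Gal L, (∀ i j, ∀ z ∈ K, σ i (σ j z) = σ j (σ i z)) ∧
        (∀ i j, σ j (rt (b i)) = if i = j then - rt (b i) else rt (b i))) →
    symb (b 0) (b 1) (b 2) (b 3) ≠ 0

/-- PACKET BP. If `V = W ∩ L`, every element of the valuation ring `W` of an algebraic extension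
`K` is a quotient of elements of the integral closure `B` of `V`, with denominator a unit of `W`. -/
def S_BP : Prop :=
  ∀ (L K : Type) [Field L] [Field K] [Algebra L K], Algebra.IsAlgebraic L K →
  ∀ (W : ValuationSubring K) (x : K), x ∈ W →
    ∃ v : K, IsIntegral (W.comap (algebraMap L K)) v ∧ W.valuation v = 1 ∧
      IsIntegral (W.comap (algebraMap L K)) (v * x)

/-- PACKET INER (uses BP). Existence of an inertia element acting as `-1` on a ramified square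
root. -/
def S_INER : Prop :=
  ∀ (L K : Type) [Field L] [Field K] [Algebra L K], FiniteDimensional L K → IsGalois L K →
  ∀ (W : ValuationSubring K), W.valuation 2 = 1 → Infinite (IsLocalRing.ResidueField W) →
  ∀ (β : K) (b : L), b ≠ 0 → β ^ 2 = algebraMap L K b →
    (∀ x : L, x ≠ 0 → W.valuation (β * algebraMap L K x) ≠ 1) →
    ∃ σ : K ≃ₐ[L] K, (∀ z : K, σ z ∈ W ↔ z ∈ W) ∧ (∀ z ∈ W, W.valuation (σ z - z) < 1) ∧
      σ β = -β

/-- PACKET SYL (uses INER). Four commuting elements. -/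
def S_SYL : Prop :=
  ∀ (L K : Type) [Field L] [Field K] [Algebra L K], FiniteDimensional L K → IsGalois L K →
  ∀ (W : ValuationSubring K), W.valuation 2 = 1 → Infinite (IsLocalRing.ResidueField W) →
  ∀ (β : Fin 4 → K) (b : Fin 4 → L), (∀ i, b i ≠ 0) → (∀ i, β i ^ 2 = algebraMap L K (b i)) →
    (∀ e : Fin 4 → Fin 2, e ≠ 0 → ∀ x : L, x ≠ 0 →
      W.valuation ((∏ i, β i ^ (e i : ℕ)) * algebraMap L K x) ≠ 1) →
    ∃ σ : Fin 4 → (K ≃ₐ[L] K), (∀ i j, σ i * σ j = σ j * σ i) ∧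
      (∀ i j, σ j (β i) = if i = j then - β i else β i)

/-- The values of the `b i` are independent modulo 2 (for the valuation ring `V`). -/
def Indep4 {L : Type} [Field L] (V : ValuationSubring L) (b : Fin 4 → Lˣ) : Prop :=
  ∀ e : Fin 4 → Fin 2, e ≠ 0 → ∀ x : L, x ≠ 0 →
    V.valuation ((∏ i, (b i : L) ^ (e i : ℕ)) * x ^ 2) ≠ 1

/-- PACKET NV (assembly of CYC and SYL). -/
def S_NV : Prop :=
  ∀ (L : Type) [Field L] [CharZero L] (V : ValuationSubring L), V.valuation 2 = 1 →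
    Infinite (IsLocalRing.ResidueField V) →
  ∀ b : Fin 4 → Lˣ, Indep4 V b → symb (b 0) (b 1) (b 2) (b 3) ≠ 0

/-! ## The valuation -/

/-- PACKET CONST (uses SEQ). A valuation ring of ℂ adapted to the pair `i, j`. -/
def S_CONST : Prop :=
  ∀ ρ : ℂ, Transcendental ℚ ρ → ∀ i j : ℕ, i ≠ j →
    ∃ A : ValuationSubring ℂ, A.valuation 3 < 1 ∧ 1 < A.valuation (tt ρ i) ∧
      A.valuation (tt ρ j) = A.valuation (tt ρ i) ∧
      A.valuation (tt ρ i + tt ρ j) * A.valuation (tt ρ i) ≤ 1 ∧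
      A.valuation ρ = A.valuation (tt ρ i) ^ 2

/-- lexicographic positivity of an exponent vector -/
def LexPos {n : ℕ} (α : Fin n → ℤ) : Prop := ∃ i, 0 < α i ∧ ∀ j < i, α j = 0

/-- PACKET MONO. Monomial extension of a valuation ring of ℂ, with successive infinitesimals. -/
def S_MONO : Prop :=
  ∀ (E : Type) [Field E] [Algebra ℂ E] (A : ValuationSubring ℂ) (n : ℕ) (z : Fin n → E),
    AlgebraicIndependent ℂ z →
    ∃ W : ValuationSubring E,
      (∀ c : ℂ, A.valuation c = 1 → W.valuation (algebraMap ℂ E c) = 1) ∧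
      (∀ (c : ℂ) (α : Fin n → ℤ), c ≠ 0 →
        (A.valuation c < 1 ∨ (A.valuation c = 1 ∧ LexPos α)) →
        W.valuation (algebraMap ℂ E c * ∏ i, z i ^ α i) < 1) ∧
      (∀ g ∈ IntermediateField.adjoin ℂ (Set.range z), g ≠ 0 →
        ∃ (c : ℂ) (α : Fin n → ℤ), c ≠ 0 ∧
          W.valuation g = W.valuation (algebraMap ℂ E c * ∏ i, z i ^ α i))

/-- PACKET QUAD. Adjoining the square root of an element of even value does not change the
value group. -/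
def S_QUAD : Prop :=
  ∀ (E : Type) [Field E] (W : ValuationSubring E), W.valuation 2 = 1 →
  ∀ (F : Subfield E) (θ : E), θ ^ 2 ∈ F → (∃ d ∈ F, W.valuation θ = W.valuation d) →
    ∀ g ∈ Subfield.closure ((F : Set E) ∪ {θ}), g ≠ 0 →
      ∃ γ ∈ F, γ ≠ 0 ∧ W.valuation g = W.valuation γ

/-! ## The field -/

/-- the rational function field in six variables -/
abbrev E6 : Type := FractionRing (MvPolynomial (Fin 6) ℂ)

/-- the variables `t, ξ, y, U, α, β` of `E6` -/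
noncomputable def vX (i : Fin 6) : E6 := algebraMap (MvPolynomial (Fin 6) ℂ) E6 (MvPolynomial.X i)

noncomputable def et : E6 := vX 0
noncomputable def ex : E6 := (9 - vX 1 ^ 2) / (vX 1 ^ 2 - 1)
noncomputable def ey : E6 := vX 2
noncomputable def eu : E6 := vX 3 ^ 2
/-- `k = t² + ρ` -/
noncomputable def ek (ρ : ℂ) : E6 := et ^ 2 + algebraMap ℂ E6 ρ
noncomputable def eP (ρ : ℂ) : E6 := (vX 4 + ff ex ey (ek ρ) / vX 4) / 2
noncomputable def er (ρ : ℂ) : E6 := (ff ex ey (ek ρ) / vX 4 - vX 4) / (2 * vX 3)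
noncomputable def eQ (ρ : ℂ) : E6 := (vX 5 + eu * hh eu ρ / vX 5) / 2
noncomputable def es (ρ : ℂ) : E6 :=
  (eu * hh eu ρ / vX 5 - vX 5) / (2 * (8 * vX 1 / (vX 1 ^ 2 - 1)))

/-- The field `L = ℂ(t, x, y, u, r, s, P, Q)`. -/
noncomputable def LL (ρ : ℂ) : IntermediateField ℂ E6 :=
  IntermediateField.adjoin ℂ {et, ex, ey, eu, er ρ, es ρ, eP ρ, eQ ρ}

/-- the six algebraically independent elements `1/k, 1/y, x, u, r, s` -/
noncomputable def zz (ρ : ℂ) : Fin 6 → E6 := ![(ek ρ)⁻¹, ey⁻¹, ex, eu, er ρ, es ρ]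

/-- PACKET EQN. The equations of `L`, and non-constancy. -/
def S_EQN : Prop := ∀ ρ : ℂ, ρ ≠ 0 →
  eP ρ ^ 2 = ff ex ey (ek ρ) + eu * er ρ ^ 2 ∧
  eQ ρ ^ 2 = eu * hh eu ρ + aa ex * es ρ ^ 2 ∧
  (∀ c : ℂ, et ≠ algebraMap ℂ E6 c) ∧ (∀ c : ℂ, ex ≠ algebraMap ℂ E6 c) ∧
  (∀ c : ℂ, ey ≠ algebraMap ℂ E6 c) ∧ (∀ c : ℂ, eu ≠ algebraMap ℂ E6 c) ∧
  ey ≠ (ek ρ) ^ 2

/-- PACKET IND. Algebraic independence (transcendence degree). -/
def S_IND : Prop := ∀ ρ : ℂ, ρ ≠ 0 → AlgebraicIndependent ℂ (zz ρ)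

/-- PACKET LVAL (uses CONST, SEQ, MONO, QUAD, EQN, IND). -/
def S_LVAL : Prop := ∀ ρ : ℂ, Transcendental ℚ ρ → ∀ i j : ℕ, i ≠ j →
  ∃ V : ValuationSubring (LL ρ), V.valuation 2 = 1 ∧ Infinite (IsLocalRing.ResidueField V) ∧
    ∀ b : Fin 4 → (LL ρ)ˣ, ((b 0 : LL ρ) : E6) = eu → ((b 1 : LL ρ) : E6) = aa ex →
      ((b 2 : LL ρ) : E6) = ey →
      ((b 3 : LL ρ) : E6) = (et - algebraMap ℂ E6 (tt ρ i)) * (et - algebraMap ℂ E6 (tt ρ j)) →
      Indep4 V b

/-- PACKET FIN (final assembly). -/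
def S_FIN : Prop := ∃ L : IntermediateField ℂ E6, L.FG ∧ Infinite (unramified L 2 4)

end UnrCoh
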