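import Mathlib
import Pool.Agent.Helper15.UH.Defs
import Pool.Agent.Helper15.UH.Goals

namespace UnrCoh

section Sym4Lemmas

variable {L M : Type} [Field L] [AddCommGroup M] {S : Lˣ → Lˣ → Lˣ → Lˣ → M}

theorem Sym4.rot (h : Sym4 S) (a b c d : Lˣ) : S a b c d = S d a b c := by
  rw [h.swap3, h.swap2, h.swap1]

theorem Sym4.mul4 (h : Sym4 S) (a b c d e : Lˣ) :
    S a b c (d * e) = S a b c d + S a b c e := by
  rw [h.rot a b c (d * e), h.mul, ← h.rot a b c d, ← h.rot a b c e]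

theorem Sym4.sq2 (h : Sym4 S) (a b c d : Lˣ) : S a (b * b) c d = 0 :=
  h.norm a (b * b) b 0 (by push_cast; ring) c d

theorem Sym4.sq1 (h : Sym4 S) (a b c d : Lˣ) : S (a * a) b c d = 0 := by
  rw [h.swap1, h.sq2]

theorem Sym4.sq4 (h : Sym4 S) (a b c d : Lˣ) : S a b c (d * d) = 0 := by
  rw [h.rot, h.sq1]

theorem Sym4.two (h : Sym4 S) (a b c d : Lˣ) : S a b c d + S a b c d = 0 := by
  rw [← h.mul, h.sq1]

theorem Sym4.comp {M' : Type} [AddCommGroup M'] (h : Sym4 S) (f : M →+ M') :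
    Sym4 (fun a b c d => f (S a b c d)) where
  mul a b c d e := by
    show f _ = f _ + f _
    rw [h.mul, map_add]
  swap1 a b c d := congrArg f (h.swap1 a b c d)
  swap2 a b c d := congrArg f (h.swap2 a b c d)
  swap3 a b c d := congrArg f (h.swap3 a b c d)
  norm b c p q hpq d e := by
    show f _ = 0
    rw [h.norm b c p q hpq d e, map_zero]

end Sym4Lemmas

theorem exists_transcendental_rho : ∃ ρ : ℂ, Transcendental ℚ ρ := by
  obtain ⟨x, hx⟩ := (⟨_, transcendental_liouvilleNumber (m := 2) le_rfl⟩ :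
    ∃ x : ℝ, Transcendental ℤ x)
  refine ⟨(x : ℂ), ?_⟩
  intro h
  apply hx
  have h1 : IsAlgebraic ℤ (x : ℂ) := (IsFractionRing.isAlgebraic_iff ℤ ℚ ℂ).mpr h
  have h2 : IsAlgebraic ℤ (algebraMap ℝ ℂ x) := h1
  exact (isAlgebraic_algebraMap_iff (algebraMap ℝ ℂ).injective).mp h2

/-- The symbol lies in the unramified subgroup (generic field). -/
theorem symb_mem_unramified (habs : S_ABSU) (hsym : S_SYM4) (hpl : S_PLACE)
    (L : Type) [Field L] [CharZero L] [Algebra ℂ L] (ρ : ℂ) (hρ0 : ρ ≠ 0)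
    (hkρ : ∀ m, kk m ≠ ρ) (t x y u r s P Q : L)
    (hP : P ^ 2 = ff x y (t ^ 2 + algebraMap ℂ L ρ) + u * r ^ 2)
    (hQ : Q ^ 2 = u * hh u ρ + aa x * s ^ 2)
    (hct : ∀ c : ℂ, t ≠ algebraMap ℂ L c) (hcx : ∀ c : ℂ, x ≠ algebraMap ℂ L c)
    (hcy : ∀ c : ℂ, y ≠ algebraMap ℂ L c) (hcu : ∀ c : ℂ, u ≠ algebraMap ℂ L c)
    (hyk : y ≠ (t ^ 2 + algebraMap ℂ L ρ) ^ 2) (i j : ℕ) (hij : tt ρ i ≠ tt ρ j)
    (U A Y C : Lˣ) (hU : (U : L) = u) (hA : (A : L) = aa x) (hY : (Y : L) = y)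
    (hC : (C : L) = (t - algebraMap ℂ L (tt ρ i)) * (t - algebraMap ℂ L (tt ρ j))) :
    symb U A Y C ∈ unramified L 2 4 := by
  rw [mem_unramified]
  intro W hW
  obtain ⟨hp1, hp2⟩ := hpl L W hW
  obtain ⟨-, hS⟩ := hsym L
  have hS' := hS.comp (H.map 2 (W.decompositionSubgroup L).subtype continuous_subtype_val 4)
  exact habs L _ _ hS' (W.comap (algebraMap L (AlgebraicClosure L))) hW.1 hW.2 _
    hp1 hp2 ρ hρ0 hkρ t x y u r s P Q hP hQ hct hcx hcy hcu hyk i j hij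
    U A Y C hU hA hY hC

/-- Infinitely many unramified classes (generic field). -/
theorem infinite_unramified (hseq : S_SEQ) (habs : S_ABSU) (hsym : S_SYM4) (hpl : S_PLACE)
    (hnv : S_NV)
    (L : Type) [Field L] [CharZero L] [Algebra ℂ L] (ρ : ℂ) (hρ : Transcendental ℚ ρ)
    (t x y u r s P Q : L)
    (hP : P ^ 2 = ff x y (t ^ 2 + algebraMap ℂ L ρ) + u * r ^ 2)
    (hQ : Q ^ 2 = u * hh u ρ + aa x * s ^ 2)
    (hct : ∀ c : ℂ, t ≠ algebraMap ℂ L c) (hcx : ∀ c : ℂ, x ≠ algebraMap ℂ L c)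
    (hcy : ∀ c : ℂ, y ≠ algebraMap ℂ L c) (hcu : ∀ c : ℂ, u ≠ algebraMap ℂ L c)
    (hyk : y ≠ (t ^ 2 + algebraMap ℂ L ρ) ^ 2)
    (hV : ∀ i j : ℕ, i ≠ j → ∃ V : ValuationSubring L, V.valuation 2 = 1 ∧
      Infinite (IsLocalRing.ResidueField V) ∧ ∀ b : Fin 4 → Lˣ, (b 0 : L) = u →
      (b 1 : L) = aa x → (b 2 : L) = y →
      (b 3 : L) = (t - algebraMap ℂ L (tt ρ i)) * (t - algebraMap ℂ L (tt ρ j)) →
      Indep4 V b) :
    Infinite (unramified L 2 4) := by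
  have hρ0 : ρ ≠ 0 := by
    rintro rfl
    exact hρ isAlgebraic_zero
  obtain ⟨-, -, -, -, -, hk0, hkinj, hkalg, -⟩ := hseq
  have hkρ : ∀ m, kk m ≠ ρ := fun m h => hρ (h ▸ hkalg m)
  have httne : ∀ i j : ℕ, i ≠ j → tt ρ i ≠ tt ρ j := by
    intro i j hij h
    have h2 : tt ρ i ^ 2 = tt ρ j ^ 2 := by rw [h]
    unfold tt at h2
    rw [csq_sq, csq_sq] at h2
    exact hij (hkinj (sub_left_inj.mp h2))
  have hu0 : u ≠ 0 := by simpa using hcu 0
  have hy0 : y ≠ 0 := by simpa using hcy 0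
  have ha0 : aa x ≠ 0 := by
    unfold aa
    refine mul_ne_zero ?_ ?_
    · intro h
      apply hcx (-1)
      rw [map_neg, map_one]
      exact eq_neg_of_add_eq_zero_left h
    · intro h
      apply hcx (-9)
      rw [map_neg, map_ofNat]
      exact eq_neg_of_add_eq_zero_left h
  have ht0 : ∀ i : ℕ, t - algebraMap ℂ L (tt ρ i) ≠ 0 := fun i => sub_ne_zero.mpr (hct _)
  let U : Lˣ := Units.mk0 u hu0
  let A : Lˣ := Units.mk0 (aa x) ha0
  let Y : Lˣ := Units.mk0 y hy0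
  let T : ℕ → Lˣ := fun i => Units.mk0 (t - algebraMap ℂ L (tt ρ i)) (ht0 i)
  obtain ⟨-, hS⟩ := hsym L
  have hne : ∀ i j : ℕ, i ≠ j → symb U A Y (T i * T j) ≠ 0 := by
    intro i j hij
    obtain ⟨V, hV2, hVinf, hV⟩ := hV i j hij
    have hI := hV ![U, A, Y, T i * T j] rfl rfl rfl rfl
    exact hnv L V hV2 hVinf ![U, A, Y, T i * T j] hI
  have hur : ∀ i j : ℕ, i ≠ j → symb U A Y (T i * T j) ∈ unramified L 2 4 := fun i j hij =>
    symb_mem_unramified habs hsym hpl L ρ hρ0 hkρ t x y u r s P Q hP hQ hct hcx hcy hcu hyk i j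
      (httne i j hij) U A Y (T i * T j) rfl rfl rfl rfl
  let ξ : ℕ → unramified L 2 4 := fun m =>
    ⟨symb U A Y (T (m + 1) * T 0), hur _ _ (Nat.succ_ne_zero m)⟩
  refine Infinite.of_injective ξ ?_
  intro m n hmn
  by_contra hne'
  have h1 : symb U A Y (T (m + 1) * T 0) = symb U A Y (T (n + 1) * T 0) :=
    congrArg Subtype.val hmn
  have h2 : symb U A Y ((T (m + 1) * T 0) * (T (n + 1) * T 0)) = 0 := by
    rw [hS.mul4, ← h1, hS.two]
  have h3 : (T (m + 1) * T 0) * (T (n + 1) * T 0) = (T (m + 1) * T (n + 1)) * (T 0 * T 0) := by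
    rw [mul_mul_mul_comm]
  rw [h3, hS.mul4, hS.sq4, add_zero] at h2
  exact hne (m + 1) (n + 1) (fun h => hne' (Nat.succ_injective h)) h2

theorem S_FIN_of (hseq : S_SEQ) (habs : S_ABSU) (hsym : S_SYM4) (hpl : S_PLACE) (hnv : S_NV)
    (heqn : S_EQN) (hlval : S_LVAL) : S_FIN := by
  obtain ⟨ρ, hρ⟩ := exists_transcendental_rho
  have hρ0 : ρ ≠ 0 := by
    rintro rfl
    exact hρ isAlgebraic_zero
  obtain ⟨heP, heQ, hct, hcx, hcy, hcu, hyk⟩ := heqn ρ hρ0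
  have hmem : ∀ z ∈ ({et, ex, ey, eu, er ρ, es ρ, eP ρ, eQ ρ} : Set E6), z ∈ LL ρ :=
    fun z hz => IntermediateField.subset_adjoin _ _ hz
  have mt : et ∈ LL ρ := hmem _ (by simp)
  have mx : ex ∈ LL ρ := hmem _ (by simp)
  have my : ey ∈ LL ρ := hmem _ (by simp)
  have mu : eu ∈ LL ρ := hmem _ (by simp)
  have mr : er ρ ∈ LL ρ := hmem _ (by simp)
  have ms : es ρ ∈ LL ρ := hmem _ (by simp)
  have mP : eP ρ ∈ LL ρ := hmem _ (by simp)
  have mQ : eQ ρ ∈ LL ρ := hmem _ (by simp)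
  have hfg : (LL ρ).FG := by
    unfold LL
    apply IntermediateField.fg_adjoin_of_finite
    exact Set.toFinite _
  have hval := hlval ρ hρ
  refine ⟨LL ρ, hfg, ?_⟩
  have : CharZero (LL ρ) := charZero_of_injective_algebraMap (algebraMap ℂ (LL ρ)).injective
  refine infinite_unramified hseq habs hsym hpl hnv (LL ρ) ρ hρ ⟨et, mt⟩ ⟨ex, mx⟩ ⟨ey, my⟩ ⟨eu, mu⟩
    ⟨er ρ, mr⟩ ⟨es ρ, ms⟩ ⟨eP ρ, mP⟩ ⟨eQ ρ, mQ⟩ (Subtype.ext heP) (Subtype.ext heQ)
    (fun c h => hct c (congrArg Subtype.val h)) (fun c h => hcx c (congrArg Subtype.val h))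
    (fun c h => hcy c (congrArg Subtype.val h)) (fun c h => hcu c (congrArg Subtype.val h))
    (fun h => hyk (congrArg Subtype.val h)) ?_
  intro i j hij
  obtain ⟨V, hV2, hVinf, hV⟩ := hval i j hij
  exact ⟨V, hV2, hVinf, fun b h0 h1 h2 h3 => hV b (congrArg Subtype.val h0)
    (congrArg Subtype.val h1) (congrArg Subtype.val h2) (congrArg Subtype.val h3)⟩

end UnrCoh
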