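import Pool.Agent.Helper15.UH.Goals

/-!
# Packet PLACE: Kummer characters at a place
-/

namespace UnrCoh

open scoped Pointwise

namespace PlaceAux

variable {K L : Type} [Field K] [Field L]

theorem val_lt_one_iff (A : ValuationSubring K) {x : K} (hx : x ≠ 0) :
    A.valuation x < 1 ↔ x⁻¹ ∉ A := by
  rw [← A.valuation_le_one_iff, map_inv₀, not_le, one_lt_inv₀]
  exact (Valuation.pos_iff _).2 hx

theorem comap_lt_one (f : K →+* L) (W : ValuationSubring L) (x : K) :
    (W.comap f).valuation x < 1 ↔ W.valuation (f x) < 1 := by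
  rcases eq_or_ne x 0 with rfl | hx
  · simp
  · have hfx : f x ≠ 0 := by simpa using hx
    rw [val_lt_one_iff _ hx, val_lt_one_iff _ hfx, ValuationSubring.mem_comap, map_inv₀]

theorem comap_le_one (f : K →+* L) (W : ValuationSubring L) (x : K) :
    (W.comap f).valuation x ≤ 1 ↔ W.valuation (f x) ≤ 1 := by
  rw [ValuationSubring.valuation_le_one_iff, ValuationSubring.valuation_le_one_iff,
    ValuationSubring.mem_comap]

theorem comap_eq_one (f : K →+* L) (W : ValuationSubring L) (x : K) :
    (W.comap f).valuation x = 1 ↔ W.valuation (f x) = 1 := by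
  have h1 := comap_lt_one f W x
  have h2 := comap_le_one f W x
  constructor
  · intro h
    exact le_antisymm (h2.1 h.le) (not_lt.1 fun h3 => absurd (h1.2 h3) (by rw [h]; exact lt_irrefl _))
  · intro h
    exact le_antisymm (h2.2 h.le) (not_lt.1 fun h3 => absurd (h1.1 h3) (by rw [h]; exact lt_irrefl _))

end PlaceAux

open PlaceAux

section

variable {L : Type} [Field L] [Algebra ℂ L] (W : ValuationSubring (AlgebraicClosure L))

/-- elements of the decomposition group preserve the valuation ring -/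
theorem dec_mem (σ : W.decompositionSubgroup L) (x : AlgebraicClosure L) :
    (σ : Gal L) x ∈ W ↔ x ∈ W := by
  have h : (σ : Gal L) • W = W := σ.2
  have h2 : (σ : Gal L) x ∈ (σ : Gal L) • W ↔ x ∈ W :=
    ValuationSubring.smul_mem_pointwise_smul_iff (g := (σ : Gal L)) (S := W) (x := x)
  rwa [h] at h2

theorem dec_lt (σ : W.decompositionSubgroup L) (x : AlgebraicClosure L) :
    W.valuation ((σ : Gal L) x) < 1 ↔ W.valuation x < 1 := by
  rcases eq_or_ne x 0 with rfl | hx
  · simp
  · have hfx : (σ : Gal L) x ≠ 0 := by simpa using hx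
    rw [val_lt_one_iff _ hx, val_lt_one_iff _ hfx, ← map_inv₀, dec_mem]

theorem place_val_two (hW : IsDiscretePlace L W) : W.valuation (2 : AlgebraicClosure L) = 1 := by
  have h1 := hW.1 2
  have h2 := hW.1 (2⁻¹)
  rw [map_ofNat, map_ofNat] at h1
  rw [map_inv₀, map_inv₀, map_ofNat, map_ofNat] at h2
  rw [← W.valuation_le_one_iff] at h1 h2
  refine le_antisymm h1 (not_lt.1 fun h => ?_)
  rw [val_lt_one_iff, ← W.valuation_le_one_iff] at h
  · exact h h2
  · intro h0
    have : (algebraMap L (AlgebraicClosure L)) (algebraMap ℂ L 2) = 0 := by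
      rw [map_ofNat, map_ofNat]; exact h0
    rw [map_eq_zero, map_eq_zero] at this
    norm_num at this

theorem smul_rt (b : Lˣ) (σ : Gal L) : σ (rt b) = rt b ∨ σ (rt b) = - rt b := by
  have h : σ (rt b) ^ 2 = rt b ^ 2 := by
    rw [← map_pow, rt_sq, AlgEquiv.commutes]
  exact sq_eq_sq_iff_eq_or_eq_neg.1 h

/-- one case -/
theorem key_case (hW : IsDiscretePlace L W) (σ : W.decompositionSubgroup L)
    (β c : AlgebraicClosure L) (hc : (σ : Gal L) c = c) (hc1 : W.valuation c = 1)
    (h : W.valuation (β - c) < 1) : (σ : Gal L) β ≠ - β := by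
  intro h2
  have h3 : W.valuation ((σ : Gal L) (β - c)) < 1 := (dec_lt W σ _).2 h
  rw [map_sub, h2, hc] at h3
  have h4 : W.valuation ((β - c) + (-β - c)) < 1 := Valuation.map_add_lt _ h h3
  have h5 : (β - c) + (-β - c) = -(2 * c) := by ring
  rw [h5, Valuation.map_neg, map_mul, place_val_two W hW, hc1, mul_one] at h4
  exact lt_irrefl _ h4

/-- (A) -/
theorem kum_dec (hW : IsDiscretePlace L W) (b : Lˣ)
    (hb : (W.comap (algebraMap L (AlgebraicClosure L))).valuation ((b : L) - 1) < 1)
    (σ : W.decompositionSubgroup L) : kum b (σ : Gal L) = 0 := by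
  rw [comap_lt_one, map_sub, map_one, ← rt_sq] at hb
  have h1 : (rt b) ^ 2 - 1 = (rt b - 1) * (rt b + 1) := by ring
  rw [h1, map_mul] at hb
  have h2 : W.valuation (rt b - 1) < 1 ∨ W.valuation (rt b - (-1)) < 1 := by
    by_contra h
    push Not at h
    rw [sub_neg_eq_add] at h
    exact absurd (one_le_mul h.1 h.2) (not_le.2 hb)
  have h3 : (σ : Gal L) (rt b) ≠ - rt b := by
    rcases h2 with h2 | h2
    · exact key_case W hW σ _ 1 (map_one _) (map_one _) h2
    · exact key_case W hW σ _ (-1) (by rw [map_neg, map_one]) (by rw [Valuation.map_neg, map_one]) h2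
  rcases smul_rt b (σ : Gal L) with h | h
  · simp [kum, h]
  · exact absurd h h3

theorem val_rt {b : Lˣ}
    (hb : (W.comap (algebraMap L (AlgebraicClosure L))).valuation (b : L) = 1) :
    W.valuation (rt b) = 1 := by
  rw [comap_eq_one, ← rt_sq, map_pow] at hb
  exact (pow_eq_one_iff.1 hb).resolve_right two_ne_zero

/-- (B) -/
theorem kum_in (hW : IsDiscretePlace L W) (b : Lˣ)
    (hb : (W.comap (algebraMap L (AlgebraicClosure L))).valuation (b : L) = 1)
    (σ : W.decompositionSubgroup L) (hσ : σ ∈ W.inertiaSubgroup L) : kum b (σ : Gal L) = 0 := by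
  have hv := val_rt W hb
  have hmem : rt b ∈ W := by rw [← W.valuation_le_one_iff]; exact hv.le
  have h1 : MulSemiringAction.toRingAut (W.decompositionSubgroup L)
      (IsLocalRing.ResidueField W) σ = 1 := hσ
  have h2 : σ • (IsLocalRing.residue W ⟨rt b, hmem⟩) = IsLocalRing.residue W ⟨rt b, hmem⟩ := by
    have := RingEquiv.congr_fun h1 (IsLocalRing.residue W ⟨rt b, hmem⟩)
    simpa using this
  rw [← IsLocalRing.ResidueField.residue_smul] at h2
  have h3 : IsLocalRing.residue W (σ • (⟨rt b, hmem⟩ : W) - ⟨rt b, hmem⟩) = 0 := by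
    rw [map_sub, h2, sub_self]
  rw [IsLocalRing.residue_eq_zero_iff, ValuationSubring.valuation_lt_one_iff] at h3
  have h4 : W.valuation ((σ : Gal L) (rt b) - rt b) < 1 := h3
  rcases smul_rt b (σ : Gal L) with h | h
  · simp [kum, h]
  · rw [h] at h4
    have h5 : - rt b - rt b = -(2 * rt b) := by ring
    rw [h5, Valuation.map_neg, map_mul, place_val_two W hW, hv, mul_one] at h4
    exact absurd h4 (lt_irrefl _)

end

theorem locconst_comp {X Y Z : Type*} [TopologicalSpace X] [TopologicalSpace Y] {f : Y → Z}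
    (hf : IsLocallyConstant f) {g : X → Y} (hg : Continuous g) : IsLocallyConstant (f ∘ g) :=
  hf.comp_continuous hg

theorem cup4_cochains {G : Type} [Group G] [TopologicalSpace G] {χ₀ χ₁ χ₂ χ₃ : G → ZMod 2}
    (h₀ : IsLocallyConstant χ₀) (h₁ : IsLocallyConstant χ₁) (h₂ : IsLocallyConstant χ₂)
    (h₃ : IsLocallyConstant χ₃) : cup4 χ₀ χ₁ χ₂ χ₃ ∈ cochains G 2 4 := by
  have a₀ := locconst_comp h₀ (continuous_apply (A := fun _ : Fin 4 => G) 0)
  have a₁ := locconst_comp h₁ (continuous_apply (A := fun _ : Fin 4 => G) 1)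
  have a₂ := locconst_comp h₂ (continuous_apply (A := fun _ : Fin 4 => G) 2)
  have a₃ := locconst_comp h₃ (continuous_apply (A := fun _ : Fin 4 => G) 3)
  exact ((a₀.mul a₁).mul a₂).mul a₃

/-- descent of a character to the quotient -/
theorem descend {G : Type} [Group G] [TopologicalSpace G] (N : Subgroup G) [N.Normal]
    (χ : G → ZMod 2) (hc : IsLocallyConstant χ) (hm : ∀ g h, χ (g * h) = χ g + χ h)
    (hN : ∀ g ∈ N, χ g = 0) :
    ∃ ψ : G ⧸ N → ZMod 2, IsLocallyConstant ψ ∧ ∀ g, ψ (QuotientGroup.mk' N g) = χ g := by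
  let f : G →* Multiplicative (ZMod 2) :=
    { toFun := fun g => Multiplicative.ofAdd (χ g)
      map_one' := by
        have := hm 1 1
        rw [mul_one] at this
        have h0 : χ 1 = 0 := by simpa using this
        rw [h0]; rfl
      map_mul' := fun g h => by
        rw [hm]; rfl }
  have hf : ∀ g ∈ N, f g = 1 := fun g hg => by
    show Multiplicative.ofAdd (χ g) = 1
    rw [hN g hg]; rfl
  refine ⟨fun x => Multiplicative.toAdd (QuotientGroup.lift N f hf x), ?_, fun g => rfl⟩
  intro s
  have : IsOpen (QuotientGroup.mk ⁻¹' ((fun x => Multiplicative.toAdd (QuotientGroup.lift N f hf x)) ⁻¹' s) :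
      Set G) := hc s
  exact this

theorem place (hK : S_KUM) (hS : S_SYM4) : S_PLACE := by
  intro L _ _ W hW
  have : CharZero L := charZero_of_injective_algebraMap (algebraMap ℂ L).injective
  obtain ⟨k1, k2, -, -⟩ := hK L
  obtain ⟨s1, -⟩ := hS L
  have hsymb : ∀ b c d e : Lˣ, symb b c d e = QuotientAddGroup.mk ⟨_, s1 b c d e⟩ := by
    intro b c d e
    rw [symb, dif_pos (s1 b c d e)]
  refine ⟨fun b c d e hb => ?_, fun b c d e hb hc hd he => ?_⟩
  · rw [hsymb]
    have h0 : (cocyclesMap 2 (W.decompositionSubgroup L).subtype continuous_subtype_val 4)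
        ⟨_, s1 b c d e⟩ = 0 := by
      apply Subtype.ext
      ext g
      show kum b ((g 0 : W.decompositionSubgroup L) : Gal L) * _ * _ * _ = 0
      rw [kum_dec W hW b hb (g 0)]
      ring
    show QuotientAddGroup.mk ((cocyclesMap 2 (W.decompositionSubgroup L).subtype
      continuous_subtype_val 4) ⟨_, s1 b c d e⟩) = 0
    rw [h0]
    rfl
  · rw [hsymb]
    have hd1 : ∀ x : Lˣ, (W.comap (algebraMap L (AlgebraicClosure L))).valuation (x : L) = 1 →
        ∃ ψ : (W.decompositionSubgroup L) ⧸ (W.inertiaSubgroup L) → ZMod 2, IsLocallyConstant ψ ∧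
          ∀ g, ψ (QuotientGroup.mk' (W.inertiaSubgroup L) g) = kum x (g : Gal L) := by
      intro x hx
      refine descend (W.inertiaSubgroup L) (fun g => kum x (g : Gal L)) ?_ ?_ ?_
      · exact (k1 x).comp_continuous continuous_subtype_val
      · intro g h
        exact k2 x _ _
      · intro g hg
        exact kum_in W hW x hx g hg
    obtain ⟨ψb, hb1, hb2⟩ := hd1 b hb
    obtain ⟨ψc, hc1, hc2⟩ := hd1 c hc
    obtain ⟨ψd, hd3, hd2⟩ := hd1 d hd
    obtain ⟨ψe, he1, he2⟩ := hd1 e he
    have hpull : pull 2 (QuotientGroup.mk' (W.inertiaSubgroup L)) 4 (cup4 ψb ψc ψd ψe) =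
        pull 2 (W.decompositionSubgroup L).subtype 4 (cup4 (kum b) (kum c) (kum d) (kum e)) := by
      ext g
      show ψb _ * ψc _ * ψd _ * ψe _ = kum b _ * kum c _ * kum d _ * kum e _
      rw [hb2, hc2, hd2, he2]
      rfl
    have hcoc : cup4 ψb ψc ψd ψe ∈
        cocycles ((W.decompositionSubgroup L) ⧸ (W.inertiaSubgroup L)) 2 4 := by
      refine ⟨cup4_cochains hb1 hc1 hd3 he1, ?_⟩
      have h1 := pull_mem_cocycles 2 (φ := (W.decompositionSubgroup L).subtype)
        continuous_subtype_val (s1 b c d e)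
      rw [← hpull] at h1
      have h2 : diff (W.decompositionSubgroup L) 2 4
        (pull 2 (QuotientGroup.mk' (W.inertiaSubgroup L)) 4 (cup4 ψb ψc ψd ψe)) = 0 := h1.2
      rw [diff_pull] at h2
      show diff _ 2 4 (cup4 ψb ψc ψd ψe) = 0
      ext g
      obtain ⟨g', hg'⟩ : ∃ g' : Fin 5 → W.decompositionSubgroup L,
          (fun i => QuotientGroup.mk' (W.inertiaSubgroup L) (g' i)) = g := by
        choose g' hg' using fun i => QuotientGroup.mk'_surjective (W.inertiaSubgroup L) (g i)
        exact ⟨g', funext hg'⟩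
      have h3 := congrFun h2 g'
      rw [← hg']
      exact h3
    refine ⟨QuotientAddGroup.mk ⟨_, hcoc⟩, ?_⟩
    show QuotientAddGroup.mk ((cocyclesMap 2 (QuotientGroup.mk' (W.inertiaSubgroup L))
      QuotientGroup.continuous_mk 4) ⟨_, hcoc⟩) = QuotientAddGroup.mk ((cocyclesMap 2
        (W.decompositionSubgroup L).subtype continuous_subtype_val 4) ⟨_, s1 b c d e⟩)
    congr 1
    exact Subtype.ext hpull

end UnrCoh
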