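import Mathlib
import Pool.Agent.Helper15.UH.Defs
import Pool.Agent.Helper15.UH.Goals

namespace UnrCoh

section Sym2Lemmas

variable {L M : Type} [Field L] [AddCommGroup M] {B : Lˣ → Lˣ → M}

theorem Sym2.sq (h : Sym2 B) (b c : Lˣ) (s : L) (hc : (c : L) = s ^ 2) : B b c = 0 :=
  h.norm b c s 0 (by rw [hc]; ring)

theorem Sym2.mul_right (h : Sym2 B) (a b c : Lˣ) : B a (b * c) = B a b + B a c := by
  rw [h.symm, h.mul, h.symm b a, h.symm c a]

theorem Sym2.two (h : Sym2 B) (a b : Lˣ) : B a b + B a b = 0 := by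
  rw [← h.mul_right]
  exact h.sq a (b * b) b (by push_cast; ring)

theorem Sym2.congr_left (h : Sym2 B) (a b c : Lˣ) (s : L) (hab : (a : L) = b * s ^ 2) :
    B a c = B b c := by
  have hs : s ≠ 0 := by
    rintro rfl
    exact a.ne_zero (by rw [hab]; ring)
  have h1 : a = b * (Units.mk0 s hs * Units.mk0 s hs) := by
    apply Units.ext
    push_cast
    rw [hab]
    simp only [Units.val_mk0]
    ring
  rw [h1, h.mul, h.symm (Units.mk0 s hs * Units.mk0 s hs) c,
    h.sq c _ s (by push_cast; simp only [Units.val_mk0]; ring), add_zero]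

theorem Sym2.congr_right (h : Sym2 B) (a b c : Lˣ) (s : L) (hab : (a : L) = b * s ^ 2) :
    B c a = B c b := by
  rw [h.symm, h.congr_left a b c s hab, h.symm]

end Sym2Lemmas

theorem spec_rec (hseq : S_SEQ) {L : Type} [Field L] [Algebra ℂ L] :
    ∀ (m : ℕ) (Y : L), (∀ c : ℂ, Y ≠ algebraMap ℂ L c) →
      ∃ T sg ta : L, sg ≠ 0 ∧ ta ≠ 0 ∧ T + 10 = Y * sg ^ 2 ∧
        T ^ 2 - 36 = (Y - algebraMap ℂ L (pp m) ^ 2) * (Y - algebraMap ℂ L (qq m) ^ 2) * ta ^ 2 := by
  obtain ⟨hr, hp, hq, -, -, -, -, -, -⟩ := hseq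
  intro m
  induction m with
  | zero =>
    intro Y _
    refine ⟨Y - 10, 1, 1, one_ne_zero, one_ne_zero, by ring, ?_⟩
    have h1 : pp 0 = 4 := rfl
    have h2 : qq 0 = 2 := rfl
    rw [h1, h2, map_ofNat, map_ofNat]
    ring
  | succ m ih =>
    intro Y hY
    have hY0 : Y ≠ 0 := by simpa using hY 0
    have : CharZero L := charZero_of_injective_algebraMap (algebraMap ℂ L).injective
    set p : L := algebraMap ℂ L (pp m) with hpdef
    set q : L := algebraMap ℂ L (qq m) with hqdef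
    set r : L := algebraMap ℂ L (rr m) with hrdef
    have hr' : r ^ 2 = p ^ 2 - q ^ 2 := by
      rw [hrdef, hpdef, hqdef, ← map_pow, hr, map_sub, map_pow, map_pow]
    have hp' : algebraMap ℂ L (pp (m + 1)) = p + r := by rw [hp, map_add]
    have hq' : algebraMap ℂ L (qq (m + 1)) = p - r := by rw [hq, map_sub]
    have hYq : Y + q ^ 2 ≠ 0 := by
      intro h
      apply hY (-(qq m) ^ 2)
      rw [map_neg, map_pow]
      exact eq_neg_of_add_eq_zero_left h
    have hYq2 : Y - q ^ 2 ≠ 0 := by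
      intro h
      apply hY ((qq m) ^ 2)
      rw [map_pow]
      exact sub_eq_zero.mp h
    have hZ : ∀ c : ℂ, (Y + q ^ 2) ^ 2 / (4 * Y) ≠ algebraMap ℂ L c := by
      intro c hc
      have h4 : (4 * Y) ≠ 0 := mul_ne_zero (by norm_num) hY0
      rw [div_eq_iff h4] at hc
      set e : ℂ := 2 * (qq m) ^ 2 - 4 * c with he
      have heL : algebraMap ℂ L e = 2 * q ^ 2 - 4 * algebraMap ℂ L c := by
        rw [he, map_sub, map_mul, map_mul, map_pow, map_ofNat, map_ofNat]
      set d : ℂ := csq (e ^ 2 - 4 * (qq m) ^ 4) with hd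
      have hd2 : (algebraMap ℂ L d) ^ 2 = (algebraMap ℂ L e) ^ 2 - 4 * q ^ 4 := by
        rw [hd, ← map_pow, csq_sq, map_sub, map_mul, map_pow, map_pow, map_ofNat]
      have hprod : (2 * Y + algebraMap ℂ L e - algebraMap ℂ L d) *
          (2 * Y + algebraMap ℂ L e + algebraMap ℂ L d) = 0 := by
        have h5 : (2 * Y + algebraMap ℂ L e - algebraMap ℂ L d) *
          (2 * Y + algebraMap ℂ L e + algebraMap ℂ L d) =
          4 * Y ^ 2 + 4 * Y * algebraMap ℂ L e + (algebraMap ℂ L e) ^ 2 -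
            (algebraMap ℂ L d) ^ 2 := by ring
        rw [h5, hd2, heL]
        linear_combination 4 * hc
      rcases mul_eq_zero.mp hprod with h | h
      · apply hY ((d - e) / 2)
        rw [map_div₀, map_sub, map_ofNat, eq_div_iff (by norm_num)]
        linear_combination h
      · apply hY ((-d - e) / 2)
        rw [map_div₀, map_sub, map_neg, map_ofNat, eq_div_iff (by norm_num)]
        linear_combination h
    obtain ⟨T, sg, ta, hsg, hta, h1, h2⟩ := ih _ hZ
    have h2Y : (2 * Y) ≠ 0 := mul_ne_zero (by norm_num) hY0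
    have h4Y : (4 * Y) ≠ 0 := mul_ne_zero (by norm_num) hY0
    refine ⟨T, sg * ((Y + q ^ 2) / (2 * Y)), ta * ((Y - q ^ 2) / (4 * Y)),
      mul_ne_zero hsg (div_ne_zero hYq h2Y), mul_ne_zero hta (div_ne_zero hYq2 h4Y), ?_, ?_⟩
    · rw [h1]
      field_simp
      ring
    · rw [h2, hp', hq']
      have e1 : (Y + q ^ 2) ^ 2 / (4 * Y) - p ^ 2 =
          (Y - (p + r) ^ 2) * (Y - (p - r) ^ 2) / (4 * Y) := by
        rw [eq_div_iff h4Y, sub_mul, div_mul_cancel₀ _ h4Y]
        linear_combination (2 * Y + (p ^ 2 - r ^ 2 + q ^ 2)) * hr'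
      have e2 : (Y + q ^ 2) ^ 2 / (4 * Y) - q ^ 2 = (Y - q ^ 2) ^ 2 / (4 * Y) := by
        rw [eq_div_iff h4Y, sub_mul, div_mul_cancel₀ _ h4Y]
        ring
      rw [e1, e2]
      field_simp


theorem spec_of_seq (hseq : S_SEQ) : S_SPEC := by
  intro L _ _ x y hy m A Y F hA hY hF
  have hch : CharZero L := charZero_of_injective_algebraMap (algebraMap ℂ L).injective
  have hF0 : ff x y (algebraMap ℂ L (kk m)) ≠ 0 := hF ▸ F.ne_zero
  have hx0 : x ≠ 0 := by
    rintro rfl
    exact hF0 (by simp [ff])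
  have hy0 : y ≠ 0 := by simpa using hy 0
  have hppne : pp m ≠ 0 := hseq.2.2.2.1 m
  have hp0 : algebraMap ℂ L (pp m) ≠ 0 := by simpa using hppne
  -- the element `T`
  have hYc : ∀ c : ℂ, algebraMap ℂ L (pp m) ^ 2 * y ≠ algebraMap ℂ L c := by
    intro c hc
    apply hy (c / (pp m) ^ 2)
    rw [map_div₀, map_pow, eq_div_iff (pow_ne_zero 2 hp0), mul_comm]
    exact hc
  obtain ⟨T, sg, ta, hsg, hta, h1, h2⟩ := spec_rec hseq m _ hYc
  have hk : algebraMap ℂ L (kk m) * algebraMap ℂ L (pp m) = algebraMap ℂ L (qq m) := by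
    rw [← map_mul, kk, div_mul_cancel₀ _ hppne]
  set P : L := algebraMap ℂ L (pp m) with hPdef
  set K : L := algebraMap ℂ L (kk m) with hKdef
  rw [← hk] at h2
  -- `T ^ 2 - 36 = (y - 1)(y - k²) (p² ta)²`
  have h2' : T ^ 2 - 36 = (y - 1) * (y - K ^ 2) * (P ^ 2 * ta) ^ 2 := by rw [h2]; ring
  have h1' : T + 10 = y * (P * sg) ^ 2 := by rw [h1]; ring
  have hy1 : y - 1 ≠ 0 := by
    intro h
    exact hF0 (by simp [ff, h])
  have hyk : y - K ^ 2 ≠ 0 := by
    intro h
    exact hF0 (by simp [ff, h])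
  have hT2 : T ^ 2 - 36 ≠ 0 := by
    rw [h2']
    exact mul_ne_zero (mul_ne_zero hy1 hyk)
      (pow_ne_zero 2 (mul_ne_zero (pow_ne_zero 2 hp0) hta))
  have hT10 : T + 10 ≠ 0 := by
    rw [h1']
    exact mul_ne_zero hy0 (pow_ne_zero 2 (mul_ne_zero hp0 hsg))
  -- the imaginary unit
  set im : L := algebraMap ℂ L Complex.I with him
  have him2 : im ^ 2 = -1 := by
    rw [him, ← map_pow, Complex.I_sq, map_neg, map_one]
  let X : Lˣ := Units.mk0 x hx0
  let Qp : Lˣ := Units.mk0 (T ^ 2 - 36) hT2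
  have hXX : ∀ (M : Type) [AddCommGroup M] (B : Lˣ → Lˣ → M), Sym2 B → ∀ b, B b b = 0 := by
    intro M _ B hB b
    exact hB.norm b b 0 im (by rw [him2]; ring)
  have ha1 : x + 1 ≠ 0 := by
    intro h
    exact hF0 (by simp [ff, aa, h])
  have ha9 : x + 9 ≠ 0 := by
    intro h
    exact hF0 (by simp [ff, aa, h])
  have hXA : ∀ (M : Type) [AddCommGroup M] (B : Lˣ → Lˣ → M), Sym2 B → B X A = 0 := by
    intro M _ B hB
    have e : A = Units.mk0 (x + 1) ha1 * Units.mk0 (x + 9) ha9 := by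
      apply Units.ext
      push_cast
      rw [hA]
      rfl
    rw [e, hB.mul_right, hB.norm X (Units.mk0 (x + 1) ha1) 1 im
      (by simp only [Units.val_mk0, X]; rw [him2]; ring),
      hB.norm X (Units.mk0 (x + 9) ha9) 3 im
      (by simp only [Units.val_mk0, X]; rw [him2]; ring), add_zero]
  have hR : x + 9 / x + 10 = aa x / x := by
    unfold aa
    field_simp
    ring
  by_cases hRT : x + 9 / x - T = 0
  · -- degenerate case
    refine ⟨1, ?_⟩
    intro M _ B hB
    have e1 : T = x + 9 / x := (sub_eq_zero.mp hRT).symm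
    have e2 : (Y : L) = ((A * X : Lˣ) : L) * (1 / (x * (P * sg))) ^ 2 := by
      have e3 : y * (P * sg) ^ 2 = aa x / x := by rw [← h1', e1, hR]
      have e4 : P * sg ≠ 0 := mul_ne_zero hp0 hsg
      push_cast
      rw [hY, hA]
      simp only [X, Units.val_mk0]
      have e5 : aa x = x * (y * (P * sg) ^ 2) := by rw [e3]; field_simp
      rw [e5]
      field_simp
    rw [hB.congr_right Y (A * X) A _ e2, hB.mul_right, hXX M B hB, hB.symm A X, hXA M B hB,
      hB.sq F 1 1 (by simp), add_zero]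
  · let RT : Lˣ := Units.mk0 (x + 9 / x - T) hRT
    refine ⟨X * RT, ?_⟩
    intro M _ B hB
    -- (1)
    have f1 : B Qp X + B Qp RT = 0 := by
      rw [← hB.mul_right]
      apply hB.norm Qp (X * RT) (x - T / 2) (1 / 2)
      push_cast
      simp only [X, RT, Qp, Units.val_mk0]
      field_simp
      ring
    -- (2)
    have hRR : x + 9 / x + 10 ≠ 0 := by
      rw [hR]
      exact div_ne_zero (hA ▸ A.ne_zero) hx0
    let P1 : Lˣ := Units.mk0 (x + 9 / x + 10) hRR
    let Q1 : Lˣ := Units.mk0 (T + 10) hT10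
    have f2a : B (Q1 / P1) (RT / P1) = 0 := by
      apply hB.norm _ _ 1 1
      rw [Units.val_div_eq_div_val, Units.val_div_eq_div_val]
      have e1 : (RT : L) = (P1 : L) - Q1 := by
        simp only [P1, Q1, RT, Units.val_mk0]
        ring
      rw [e1, sub_div, div_self P1.ne_zero]
      ring
    have f2 : B X Y + B A Y = B X RT + B A RT + B Y RT := by
      have c1 : ((Q1 / P1 : Lˣ) : L) = ((Y * (X * A) : Lˣ) : L) * (P * sg / aa x) ^ 2 := by
        rw [Units.val_div_eq_div_val]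
        push_cast
        simp only [P1, Q1, X, Units.val_mk0]
        rw [hR, h1', hA, hY]
        have : aa x ≠ 0 := hA ▸ A.ne_zero
        field_simp
      have c2 : ((RT / P1 : Lˣ) : L) = ((RT * (X * A) : Lˣ) : L) * (1 / aa x) ^ 2 := by
        rw [Units.val_div_eq_div_val]
        push_cast
        simp only [P1, RT, X, Units.val_mk0]
        rw [hR, hA]
        have : aa x ≠ 0 := hA ▸ A.ne_zero
        field_simp
      rw [hB.congr_left _ _ _ _ c1, hB.congr_right _ _ _ _ c2] at f2a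
      simp only [hB.mul, hB.mul_right, hXX M B hB, hXA M B hB, hB.symm A X] at f2a
      have t1 := hB.two Y X
      have t2 := hB.two Y A
      rw [hB.symm X Y, hB.symm A Y]
      have t3 : B Y X = - B Y X := eq_neg_of_add_eq_zero_left t1
      have t4 : B Y A = - B Y A := eq_neg_of_add_eq_zero_left t2
      rw [t3, t4, ← sub_eq_zero]
      have : -B Y X + -B Y A - (B X RT + B A RT + B Y RT) = - (0 : M) := by
        rw [← f2a]
        abel
      rw [this, neg_zero]
    -- the decomposition of `F`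
    have f3 : ∀ c, B F c = B X c + B A c + B Y c + B Qp c := by
      intro c
      have c1 : (F : L) = ((X * A * Y * Qp : Lˣ) : L) * (1 / (P ^ 2 * ta)) ^ 2 := by
        push_cast
        simp only [X, Qp, Units.val_mk0]
        rw [hF, hA, hY, h2', ff]
        field_simp
      rw [hB.congr_left _ _ _ _ c1, hB.mul, hB.mul, hB.mul]
    rw [hB.mul_right, f3 X, f3 RT, hXX M B hB X, hB.symm A X, hXA M B hB]
    have t1 := hB.two X Y
    have key : (0 + 0 + B Y X + B Qp X + (B X RT + B A RT + B Y RT + B Qp RT)) - B A Y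
        = (B X Y + B X Y) + (B Qp X + B Qp RT) - ((B X Y + B A Y) - (B X RT + B A RT + B Y RT)) := by
      rw [hB.symm Y X]
      abel
    rw [t1, f1, f2, sub_self, add_zero, sub_zero] at key
    rw [(sub_eq_zero.mp key).symm]
    abel

end UnrCoh
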