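import Mathlib
import Pool.Agent.Helper15.UH.Defs
import Pool.Agent.Helper15.UH.Goals

namespace UnrCoh

section SymProof

variable {L : Type} [Field L] [CharZero L]

theorem symb_eq_mk (b c d e : Lˣ)
    (h : cup4 (kum b) (kum c) (kum d) (kum e) ∈ cocycles (Gal L) 2 4) :
    symb b c d e = QuotientAddGroup.mk ⟨_, h⟩ := by
  unfold symb
  rw [dif_pos h]

end SymProof

theorem sym4_of (hkum : S_KUM) (hcup : S_CUP) : S_SYM4 := by
  intro L _ _
  obtain ⟨h1, h2, h3, h4⟩ := hkum L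
  have hcup' : ∀ b c d e : Lˣ,
      cup4 (kum b) (kum c) (kum d) (kum e) ∈ cocycles (Gal L) 2 4 ∧
      cup4 (kum b) (kum c) (kum d) (kum e) - cup4 (kum c) (kum b) (kum d) (kum e) ∈
        coboundaries (Gal L) 2 4 ∧
      cup4 (kum b) (kum c) (kum d) (kum e) - cup4 (kum b) (kum d) (kum c) (kum e) ∈
        coboundaries (Gal L) 2 4 ∧
      cup4 (kum b) (kum c) (kum d) (kum e) - cup4 (kum b) (kum c) (kum e) (kum d) ∈
        coboundaries (Gal L) 2 4 ∧
      (∀ φ : Gal L → ZMod 2, IsLocallyConstant φ →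
        (∀ g h : Gal L, kum b g * kum c h = φ g + φ h + φ (g * h)) →
        cup4 (kum b) (kum c) (kum d) (kum e) ∈ coboundaries (Gal L) 2 4) := by
    intro b c d e
    exact hcup (Gal L) ![kum b, kum c, kum d, kum e, kum e]
      (by intro i; fin_cases i <;> exact h1 _) (by intro i; fin_cases i <;> exact h2 _)
  have hmem : ∀ b c d e : Lˣ,
      cup4 (kum b) (kum c) (kum d) (kum e) ∈ cocycles (Gal L) 2 4 := fun b c d e =>
    (hcup' b c d e).1
  have heq : ∀ (f g : cocycles (Gal L) 2 4), (f : (Fin 4 → Gal L) → ZMod 2) - g ∈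
      coboundaries (Gal L) 2 4 → (QuotientAddGroup.mk f : H (Gal L) 2 4) = QuotientAddGroup.mk g := by
    intro f g h
    rw [QuotientAddGroup.eq_iff_sub_mem]
    exact h
  refine ⟨hmem, ?_, ?_, ?_, ?_, ?_⟩
  · intro a b c d e
    rw [symb_eq_mk _ _ _ _ (hmem (a * b) c d e), symb_eq_mk _ _ _ _ (hmem a c d e),
      symb_eq_mk _ _ _ _ (hmem b c d e), ← QuotientAddGroup.mk_add]
    congr 1
    apply Subtype.ext
    ext g
    simp only [cup4, AddSubgroup.coe_add, Pi.add_apply, h3]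
    ring
  · intro a b c d
    rw [symb_eq_mk _ _ _ _ (hmem a b c d), symb_eq_mk _ _ _ _ (hmem b a c d)]
    exact heq _ _ (hcup' a b c d).2.1
  · intro a b c d
    rw [symb_eq_mk _ _ _ _ (hmem a b c d), symb_eq_mk _ _ _ _ (hmem a c b d)]
    exact heq _ _ (hcup' a b c d).2.2.1
  · intro a b c d
    rw [symb_eq_mk _ _ _ _ (hmem a b c d), symb_eq_mk _ _ _ _ (hmem a b d c)]
    exact heq _ _ (hcup' a b c d).2.2.2.1
  · intro b c p q hpq d e
    obtain ⟨φ, hφ, hφ2⟩ := h4 b c p q hpq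
    rw [symb_eq_mk _ _ _ _ (hmem b c d e)]
    have : (QuotientAddGroup.mk (0 : cocycles (Gal L) 2 4) : H (Gal L) 2 4) = 0 := rfl
    rw [← this]
    apply heq
    rw [AddSubgroup.coe_zero, sub_zero]
    exact (hcup' b c d e).2.2.2.2 φ hφ hφ2

end UnrCoh
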