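import Mathlib
import Pool.Agent.Helper15.UH.Defs
import Pool.Agent.Helper15.UH.Goals
import Pool.Agent.Helper15.UH.Spec
import Pool.Agent.Helper15.UH.Sym
import Pool.Agent.Helper15.UH.Fin
import Pool.Agent.Helper29.UH.Seq
import Pool.Agent.Helper98.UH.Absu
import Pool.Agent.Helper52.UH.Kum
import Pool.Agent.Helper52.UH.Const
import Pool.Agent.Helper88.UH.Cup
import Pool.Agent.Helper15.UH.Place
import Pool.Agent.Helper3.UH.Cyc
import Pool.Agent.Helper63.UH.BP
import Pool.Agent.Helper24.UH.Iner
import Pool.Agent.Helper64.UH.Syl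
import Pool.Agent.Helper19.UH.NV
import Pool.Agent.Helper19.UH.Eqn
import Pool.Agent.Helper22.UH.Quad
import Pool.Agent.Helper68.UH.Lval
import Pool.Agent.Helper72.UC.Mono
import Pool.Agent.Helper52.UH.Ind

namespace UnrCoh

theorem all_seq : S_SEQ := seq_main
theorem all_spec : S_SPEC := spec_of_seq all_seq
theorem all_absu : S_ABSU := Helper98.Absu.absu all_seq all_spec
theorem all_kum : S_KUM := thm_KUM
theorem all_cup : S_CUP := cup88
theorem all_sym4 : S_SYM4 := sym4_of all_kum all_cup
theorem all_place : S_PLACE := place all_kum all_sym4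
theorem all_cyc : S_CYC := CycPacket.cyc all_sym4
theorem all_bp : S_BP := BP.main
theorem all_iner : S_INER := H24.iner all_bp
theorem all_syl : S_SYL := Helper64UH.syl all_iner
theorem all_nv : S_NV := nv all_cyc all_syl
theorem all_const : S_CONST := thm_CONST all_seq
theorem all_mono : S_MONO := Pool.Agent.Helper72.UC.mono
theorem all_quad : S_QUAD := quad
theorem all_eqn : S_EQN := eqn

theorem all_fin_of (hind : S_IND) : S_FIN :=
  S_FIN_of all_seq all_absu all_sym4 all_place all_nv all_eqn
    (H68.lval all_seq all_const all_mono all_quad all_eqn hind)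

theorem all_ind : S_IND := thm_IND

theorem all_lval : S_LVAL :=
  H68.lval all_seq all_const all_mono all_quad all_eqn all_ind

theorem all_fin : S_FIN := all_fin_of all_ind

end UnrCoh
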