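import Mathlib

/-!
# Unramified Galois cohomology of a field over ℂ (definitions of the final statement)

* `cochains G ℓ n`    : continuous (locally constant) maps `G ^ n → ℤ/ℓ`,
* `diff G ℓ n`        : the inhomogeneous differential (trivial action),
* `cocycles G ℓ n`, `coboundaries G ℓ n` : `Z^n(G, ℤ/ℓ)` and `B^n(G, ℤ/ℓ)`; the quotient is the
                        continuous cohomology `H^n(G, ℤ/ℓ)`,
* `inflatedOn D I`    : functions on `G ^ n` whose restriction to `D` is a coboundary plus a cocycle
                        inflated from `D/I`,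
* `unrCocycles L ℓ n` : the cocycles of `Gal(Lbar/L)` whose class is unramified at every discrete
                        valuation of `L` trivial on `ℂ`,
* `Hnr L ℓ n`         : `H^n_nr(L/ℂ, ℤ/ℓ)`.
-/

namespace UnrH

section Cohomology

variable (G : Type*) [Group G] [TopologicalSpace G] (ℓ : ℕ)

/-- Continuous (that is, locally constant) inhomogeneous `n`-cochains `G ^ n → ℤ/ℓ`. -/
def cochains (n : ℕ) : AddSubgroup ((Fin n → G) → ZMod ℓ) where
  carrier := {f | IsLocallyConstant f}
  add_mem' hf hg := hf.add hg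
  zero_mem' := IsLocallyConstant.const 0
  neg_mem' hf := hf.neg

omit [TopologicalSpace G] in
/-- The inhomogeneous differential
`(d f)(g₀,…,gₙ) = f(g₁,…,gₙ) + ∑_{j<n} (-1)^{j+1} f(g₀,…,gⱼgⱼ₊₁,…,gₙ) + (-1)^{n+1} f(g₀,…,gₙ₋₁)`
for the trivial action (the last summand is the term `j = n` of the sum below). -/
def diff (n : ℕ) : ((Fin n → G) → ZMod ℓ) →+ ((Fin (n + 1) → G) → ZMod ℓ) where
  toFun f g := f (fun i => g i.succ) +
    ∑ j : Fin (n + 1), (-1) ^ ((j : ℕ) + 1) * f (Fin.contractNth j (· * ·) g)
  map_zero' := by ext g; simp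
  map_add' f₁ f₂ := by
    ext g
    simp only [Pi.add_apply, mul_add, Finset.sum_add_distrib]
    ring

/-- Continuous `n`-cocycles. -/
def cocycles (n : ℕ) : AddSubgroup ((Fin n → G) → ZMod ℓ) :=
  cochains G ℓ n ⊓ (diff G ℓ n).ker

/-- Continuous `n`-coboundaries: differentials of continuous `(n-1)`-cochains. -/
def coboundaries : (n : ℕ) → AddSubgroup ((Fin n → G) → ZMod ℓ)
  | 0 => ⊥
  | n + 1 => (cochains G ℓ n).map (diff G ℓ n)

end Cohomology

section Pull

/-- Pull-back of functions on `G ^ n` along a map `φ : G' → G`. -/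
def pull {G G' : Type*} (φ : G' → G) (ℓ n : ℕ) :
    ((Fin n → G) → ZMod ℓ) →+ ((Fin n → G') → ZMod ℓ) where
  toFun f g := f (fun i => φ (g i))
  map_zero' := rfl
  map_add' _ _ := rfl

/-- The functions on `G ^ n` whose restriction to the subgroup `D` is the sum of a coboundary of
`D` and of a cocycle inflated from `D/I`.  A cocycle lies in this group if and only if the
restriction of its class to `H^n(D, ℤ/ℓ)` is in the image of the inflation map
`H^n(D/I, ℤ/ℓ) → H^n(D, ℤ/ℓ)`. -/
def inflatedOn {G : Type*} [Group G] [TopologicalSpace G] (D : Subgroup G) (I : Subgroup D)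
    [I.Normal] (ℓ n : ℕ) : AddSubgroup ((Fin n → G) → ZMod ℓ) :=
  (coboundaries D ℓ n ⊔ (cocycles (D ⧸ I) ℓ n).map (pull (fun d : D => (d : D ⧸ I)) ℓ n)).comap
    (pull (fun d : D => (d : G)) ℓ n)

end Pull

section Unramified

/-- `W` is a valuation ring of `Ω` lying over (the ring of) a discrete valuation of `L` which is
trivial on `ℂ`. -/
def IsDiscretePlace (L : Type*) {Ω : Type*} [Field L] [Field Ω] [Algebra L Ω] [Algebra ℂ L]
    (W : ValuationSubring Ω) : Prop :=
  (∀ c : ℂ, algebraMap L Ω (algebraMap ℂ L c) ∈ W) ∧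
    IsDiscreteValuationRing (W.comap (algebraMap L Ω))

instance inertiaNormal (L : Type*) {Ω : Type*} [Field L] [Field Ω] [Algebra L Ω]
    (W : ValuationSubring Ω) : (W.inertiaSubgroup L).Normal :=
  MonoidHom.normal_ker _

/-- The cocycles of `Gal(Ω/L)` with values in `ℤ/ℓ` such that, for every valuation ring `W` of `Ω`
over a discrete valuation of `L` trivial on `ℂ`, with decomposition group `D` and inertia group
`I`, the restriction of the class of the cocycle to `D` is inflated from `D/I`. -/
noncomputable def unrCocyclesIn (L Ω : Type*) [Field L] [Field Ω] [Algebra L Ω] [Algebra ℂ L] (ℓ n : ℕ) :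
    AddSubgroup ((Fin n → (Ω ≃ₐ[L] Ω)) → ZMod ℓ) :=
  cocycles (Ω ≃ₐ[L] Ω) ℓ n ⊓ ⨅ W : {W : ValuationSubring Ω // IsDiscretePlace L W},
    inflatedOn (W.1.decompositionSubgroup L) (W.1.inertiaSubgroup L) ℓ n

/-- The absolute Galois group of `L`. -/
abbrev absGal (L : Type*) [Field L] : Type _ := AlgebraicClosure L ≃ₐ[L] AlgebraicClosure L

/-- The unramified cocycles of the absolute Galois group of `L`.  (If `W` lies over the discrete
valuation `v`, the group `D` is the absolute Galois group of the henselization of `L` at `v`, the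
group `D/I` is the absolute Galois group of the residue field `κ(v)`, and the kernel of the residue
map `∂_v` on `H^n(D, ℤ/ℓ)` is the image of `H^n(D/I, ℤ/ℓ)`.) -/
noncomputable def unrCocycles (L : Type*) [Field L] [Algebra ℂ L] (ℓ n : ℕ) :
    AddSubgroup ((Fin n → absGal L) → ZMod ℓ) :=
  unrCocyclesIn L (AlgebraicClosure L) ℓ n

/-- The unramified cohomology group `H^n_nr(L/ℂ, ℤ/ℓ)`: unramified cocycles modulo
coboundaries. -/
abbrev Hnr (L : Type*) [Field L] [Algebra ℂ L] (ℓ n : ℕ) : Type _ :=
  unrCocycles L ℓ n ⧸ (coboundaries (absGal L) ℓ n).addSubgroupOf (unrCocycles L ℓ n)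

/-- `L` is the function field of a unirational variety over `ℂ`: it is a finitely generated field
extension of `ℂ` which embeds (over `ℂ`) in a rational function field `ℂ(X₁,…,X_m)`. -/
def IsUnirational (L : Type*) [Field L] [Algebra ℂ L] : Prop :=
  (⊤ : IntermediateField ℂ L).FG ∧
    ∃ m : ℕ, Nonempty (L →ₐ[ℂ] FractionRing (MvPolynomial (Fin m) ℂ))

end Unramified

end UnrH
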