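import Mathlib
import Pool.Agent.Helper15.UH.Defs
import Pool.Agent.Helper15.UH.FDefs

namespace UnrH

section

variable (G : Type*) [Group G] [TopologicalSpace G] (ℓ : ℕ)

omit [Group G] in
theorem cochains_eq (n : ℕ) : UnrCoh.cochains G ℓ n = cochains G ℓ n := rfl

omit [TopologicalSpace G] in
theorem diff_eq (n : ℕ) : UnrCoh.diff G ℓ n = diff G ℓ n := rfl

theorem cocycles_eq (n : ℕ) : UnrCoh.cocycles G ℓ n = cocycles G ℓ n := rfl

theorem coboundaries_eq (n : ℕ) : UnrCoh.coboundaries G ℓ n = coboundaries G ℓ n := by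
  cases n <;> rfl

end

/-- The class of a cocycle restricts to an inflated class iff the cocycle is in `inflatedOn`. -/
theorem mem_inflatedOn_of {G : Type*} [Group G] [TopologicalSpace G] (D : Subgroup G)
    (I : Subgroup D) [I.Normal] (ℓ n : ℕ) (f : UnrCoh.cocycles G ℓ n)
    (h : UnrCoh.res ℓ n D (QuotientAddGroup.mk f) ∈ (UnrCoh.infl ℓ n I).range) :
    (f : (Fin n → G) → ZMod ℓ) ∈ inflatedOn D I ℓ n := by
  obtain ⟨ζ, hζ⟩ := h
  obtain ⟨z, rfl⟩ := QuotientAddGroup.mk_surjective ζ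
  have h1 : (QuotientAddGroup.mk (UnrCoh.cocyclesMap ℓ (QuotientGroup.mk' I)
      QuotientGroup.continuous_mk n z) : UnrCoh.H D ℓ n) =
      QuotientAddGroup.mk (UnrCoh.cocyclesMap ℓ D.subtype continuous_subtype_val n f) := hζ
  rw [QuotientAddGroup.eq_iff_sub_mem] at h1
  have h2 : UnrCoh.pull ℓ (QuotientGroup.mk' I) n (z : (Fin n → D ⧸ I) → ZMod ℓ) -
      UnrCoh.pull ℓ D.subtype n (f : (Fin n → G) → ZMod ℓ) ∈ coboundaries D ℓ n := by
    rw [← coboundaries_eq]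
    exact h1
  show pull (fun d : D => (d : G)) ℓ n (f : (Fin n → G) → ZMod ℓ) ∈
    coboundaries D ℓ n ⊔ (cocycles (D ⧸ I) ℓ n).map (pull (fun d : D => (d : D ⧸ I)) ℓ n)
  rw [AddSubgroup.mem_sup]
  refine ⟨-(UnrCoh.pull ℓ (QuotientGroup.mk' I) n (z : (Fin n → D ⧸ I) → ZMod ℓ) -
      UnrCoh.pull ℓ D.subtype n (f : (Fin n → G) → ZMod ℓ)), AddSubgroup.neg_mem _ h2,
    pull (fun d : D => (d : D ⧸ I)) ℓ n z.1, ⟨z.1, z.2, rfl⟩, ?_⟩
  rw [neg_sub]
  exact sub_add_cancel _ _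

theorem mem_unrCocycles_of (L : Type*) [Field L] [Algebra ℂ L] (ℓ n : ℕ)
    (f : UnrCoh.cocycles (absGal L) ℓ n)
    (h : (QuotientAddGroup.mk f : UnrCoh.H (absGal L) ℓ n) ∈ UnrCoh.unramified L ℓ n) :
    (f : (Fin n → absGal L) → ZMod ℓ) ∈ unrCocycles L ℓ n := by
  rw [UnrCoh.mem_unramified] at h
  unfold unrCocycles unrCocyclesIn
  rw [AddSubgroup.mem_inf, AddSubgroup.mem_iInf]
  refine ⟨f.2, ?_⟩
  intro W
  exact mem_inflatedOn_of _ _ ℓ n f (h W.1 W.2)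

theorem bridge (L : Type*) [Field L] [Algebra ℂ L] (ℓ n : ℕ)
    (h : Infinite (UnrCoh.unramified L ℓ n)) : Infinite (Hnr L ℓ n) := by
  classical
  have hrep : ∀ ξ : UnrCoh.unramified L ℓ n, ∃ f : UnrCoh.cocycles (absGal L) ℓ n,
      (QuotientAddGroup.mk f : UnrCoh.H (absGal L) ℓ n) = ξ.1 := fun ξ =>
    QuotientAddGroup.mk_surjective ξ.1
  choose F hF using hrep
  have hmem : ∀ ξ, ((F ξ : UnrCoh.cocycles (absGal L) ℓ n) : (Fin n → absGal L) → ZMod ℓ) ∈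
      unrCocycles L ℓ n := fun ξ => mem_unrCocycles_of L ℓ n (F ξ) (by rw [hF]; exact ξ.2)
  let Φ : UnrCoh.unramified L ℓ n → Hnr L ℓ n := fun ξ =>
    QuotientAddGroup.mk (⟨_, hmem ξ⟩ : unrCocycles L ℓ n)
  refine Infinite.of_injective Φ ?_
  intro ξ η hξη
  have h1 := (QuotientAddGroup.eq_iff_sub_mem).mp hξη
  have h2 : ((F ξ : UnrCoh.cocycles (absGal L) ℓ n) : (Fin n → absGal L) → ZMod ℓ) -
      ((F η : UnrCoh.cocycles (absGal L) ℓ n) : (Fin n → absGal L) → ZMod ℓ) ∈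
      UnrCoh.coboundaries (absGal L) ℓ n := by
    rw [coboundaries_eq]
    exact h1
  have h3 : (QuotientAddGroup.mk (F ξ) : UnrCoh.H (absGal L) ℓ n) = QuotientAddGroup.mk (F η) :=
    (QuotientAddGroup.eq_iff_sub_mem).mpr h2
  rw [hF, hF] at h3
  exact Subtype.ext h3

end UnrH
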